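import Pool.Agent.H88.BL.Targets

/-!
Rows GH and LG of the board bll_modules: Gaussian integrals.
-/

set_option autoImplicit false
open MeasureTheory ProbabilityTheory Filter Topology Set
open scoped ENNReal NNReal

namespace Pool.Agent.H50.BL

open Pool.Agent.H88.BL

theorem gauss_lintegral (b : ℝ) (hb : 0 < b) :
    ∫⁻ y : ℝ, ENNReal.ofReal (Real.exp (-b * y ^ 2)) = ENNReal.ofReal (√(Real.pi / b)) := by
  rw [← integral_gaussian b, ofReal_integral_eq_lintegral_ofReal (integrable_exp_neg_mul_sq hb)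
    (Filter.Eventually.of_forall fun _ => (Real.exp_pos _).le)]

theorem sq_le_exp (x : ℝ) (hx : 0 ≤ x) : x ^ 2 ≤ Real.exp x := by
  have h := Real.quadratic_le_exp_of_nonneg (x := x / 2) (by linarith)
  have h2 : x ≤ Real.exp (x / 2) := by nlinarith [sq_nonneg (x / 2 - 2), sq_nonneg (x - 4)]
  have h3 : Real.exp x = Real.exp (x / 2) * Real.exp (x / 2) := by
    rw [← Real.exp_add]; ring_nf
  rw [h3, sq]
  exact mul_le_mul h2 h2 hx (Real.exp_pos _).le

theorem pf_GH : T_GH := by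
  intro t ht0 ht1
  have h1 : 0 < 1 - t := by linarith
  have h2 : 0 < 1 - t ^ 2 := by nlinarith
  have hpi : (3.14 : ℝ) < Real.pi := Real.pi_gt_d2
  have hpp : 0 < Real.pi := Real.pi_pos
  set b : ℝ := Real.pi ^ 2 / (8 * (1 - t)) with hb
  have hbpos : 0 < b := by positivity
  have key : ∀ y : ℝ, y ∈ {y : ℝ | 1 / 6 ≤ |y|} → ENNReal.ofReal (cg t y) ≤
      ENNReal.ofReal (Real.exp (-(1 / (30 * (1 - t))))) *
        ENNReal.ofReal (Real.exp (-b * y ^ 2)) := by
    intro y hy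
    rw [← ENNReal.ofReal_mul (Real.exp_pos _).le, ← Real.exp_add]
    apply ENNReal.ofReal_le_ofReal
    unfold cg
    apply Real.exp_le_exp.2
    have hy2 : 1 / 36 ≤ y ^ 2 := by
      have hy' : 1 / 6 ≤ |y| := hy
      have := mul_le_mul hy' hy' (by norm_num) (abs_nonneg y)
      rw [abs_mul_abs_self] at this
      nlinarith
    have e1 : (Real.pi * y) ^ 2 / (4 * (1 - t)) ≤ (Real.pi * y) ^ 2 / (2 * (1 - t ^ 2)) := by
      apply div_le_div_of_nonneg_left (sq_nonneg _) (by positivity)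
      nlinarith
    have e2 : (Real.pi * y) ^ 2 / (4 * (1 - t)) = b * y ^ 2 + b * y ^ 2 := by
      rw [hb]; field_simp; ring
    have e3 : 1 / (30 * (1 - t)) ≤ b * y ^ 2 := by
      have e4 : b * (1 / 36) ≤ b * y ^ 2 := mul_le_mul_of_nonneg_left hy2 hbpos.le
      have e5 : 1 / (30 * (1 - t)) ≤ b * (1 / 36) := by
        rw [hb, div_mul_eq_mul_div, div_le_div_iff₀ (by positivity) (by positivity)]
        have : (9.8596 : ℝ) ≤ Real.pi ^ 2 := by nlinarith
        nlinarith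
      exact e5.trans e4
    linarith
  have hm : MeasurableSet {y : ℝ | 1 / 6 ≤ |y|} :=
    measurableSet_le measurable_const measurable_norm
  calc ∫⁻ y in {y : ℝ | 1 / 6 ≤ |y|}, ENNReal.ofReal (cg t y)
      ≤ ∫⁻ y in {y : ℝ | 1 / 6 ≤ |y|}, ENNReal.ofReal (Real.exp (-(1 / (30 * (1 - t))))) *
        ENNReal.ofReal (Real.exp (-b * y ^ 2)) := setLIntegral_mono' hm key
    _ ≤ ∫⁻ y : ℝ, ENNReal.ofReal (Real.exp (-(1 / (30 * (1 - t))))) *
        ENNReal.ofReal (Real.exp (-b * y ^ 2)) := setLIntegral_le_lintegral _ _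
    _ = ENNReal.ofReal (Real.exp (-(1 / (30 * (1 - t))))) * ENNReal.ofReal (√(Real.pi / b)) := by
        rw [lintegral_const_mul' _ _ ENNReal.ofReal_ne_top, gauss_lintegral b hbpos]
    _ = ENNReal.ofReal (Real.exp (-(1 / (30 * (1 - t)))) * √(Real.pi / b)) := by
        rw [← ENNReal.ofReal_mul (Real.exp_pos _).le]
    _ ≤ ENNReal.ofReal (4 * Real.exp (-(1 / (30 * (1 - t))))) := by
        apply ENNReal.ofReal_le_ofReal
        rw [mul_comm]
        apply mul_le_mul_of_nonneg_right _ (Real.exp_pos _).le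
        apply Real.sqrt_le_iff.2
        refine ⟨by norm_num, ?_⟩
        rw [div_le_iff₀ hbpos, hb]
        have : Real.pi * (8 * (1 - t)) ≤ 4 ^ 2 * Real.pi ^ 2 := by nlinarith
        rw [mul_div_assoc', le_div_iff₀ (by positivity)]
        exact this

theorem pf_LG (hLGP : T_LGP) : T_LG := by
  intro t ht0 ht1
  have h1 : 0 < 1 - t := by linarith
  have h2 : 0 < 1 - t ^ 2 := by nlinarith
  have h22 : 1 - t ^ 2 ≤ 2 * (1 - t) := by nlinarith
  have hpp : 0 < Real.pi := Real.pi_pos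
  have hpi : Real.pi < 3.15 := Real.pi_lt_d2
  set b : ℝ := 1 / (1 - t ^ 2) with hb
  have hbpos : 0 < b := by positivity
  have hb1 : b * (1 - t ^ 2) = 1 := by rw [hb]; field_simp
  have key : ∀ y : ℝ, y ∈ {y : ℝ | |y| ≤ 1 / 6} → ENNReal.ofReal ‖cf t y - (cg t y : ℂ)‖ ≤
      ENNReal.ofReal (220 * (1 - t ^ 2)) * ENNReal.ofReal (Real.exp (-b * y ^ 2)) := by
    intro y hy
    rw [← ENNReal.ofReal_mul (by positivity)]
    apply ENNReal.ofReal_le_ofReal
    refine (hLGP t ht0 ht1 y hy).trans ?_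
    have e1 : 2 * y ^ 2 / (1 - t ^ 2) = b * y ^ 2 + b * y ^ 2 := by rw [hb]; ring
    have e2 : y ^ 4 / (1 - t ^ 2) = (1 - t ^ 2) * (b * y ^ 2) ^ 2 := by
      rw [hb]; field_simp
    rw [e1, e2, neg_add, Real.exp_add]
    have e3 := sq_le_exp (b * y ^ 2) (by positivity)
    have e4 : (b * y ^ 2) ^ 2 * Real.exp (-(b * y ^ 2)) ≤ 1 := by
      rw [Real.exp_neg, ← div_eq_mul_inv, div_le_one (Real.exp_pos _)]
      exact e3
    have e5 : 220 * ((1 - t ^ 2) * (b * y ^ 2) ^ 2) *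
        (Real.exp (-(b * y ^ 2)) * Real.exp (-(b * y ^ 2))) =
        (220 * (1 - t ^ 2) * Real.exp (-(b * y ^ 2))) *
          ((b * y ^ 2) ^ 2 * Real.exp (-(b * y ^ 2))) := by ring
    rw [e5, neg_mul]
    exact mul_le_of_le_one_right (by positivity) e4
  have hm : MeasurableSet {y : ℝ | |y| ≤ 1 / 6} :=
    measurableSet_le measurable_norm measurable_const
  have hr : (1 - t) ^ (3 / 2 : ℝ) = (1 - t) * √(1 - t) := by
    rw [Real.sqrt_eq_rpow, show (3 / 2 : ℝ) = 1 + 1 / 2 by norm_num,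
      Real.rpow_add h1, Real.rpow_one]
  calc ∫⁻ y in {y : ℝ | |y| ≤ 1 / 6}, ENNReal.ofReal ‖cf t y - (cg t y : ℂ)‖
      ≤ ∫⁻ y in {y : ℝ | |y| ≤ 1 / 6},
        ENNReal.ofReal (220 * (1 - t ^ 2)) * ENNReal.ofReal (Real.exp (-b * y ^ 2)) :=
        setLIntegral_mono' hm key
    _ ≤ ∫⁻ y : ℝ, ENNReal.ofReal (220 * (1 - t ^ 2)) *
        ENNReal.ofReal (Real.exp (-b * y ^ 2)) := setLIntegral_le_lintegral _ _
    _ = ENNReal.ofReal (220 * (1 - t ^ 2)) * ENNReal.ofReal (√(Real.pi / b)) := by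
        rw [lintegral_const_mul' _ _ ENNReal.ofReal_ne_top, gauss_lintegral b hbpos]
    _ = ENNReal.ofReal (220 * (1 - t ^ 2) * √(Real.pi / b)) := by
        rw [← ENNReal.ofReal_mul (by positivity)]
    _ ≤ ENNReal.ofReal (2000 * (1 - t) ^ (3 / 2 : ℝ)) := by
        apply ENNReal.ofReal_le_ofReal
        rw [hr]
        have f1 : √(Real.pi / b) ≤ 4 * √(1 - t) := by
          apply Real.sqrt_le_iff.2
          refine ⟨by positivity, ?_⟩
          rw [mul_pow, Real.sq_sqrt h1.le, hb]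
          have : Real.pi / (1 / (1 - t ^ 2)) = Real.pi * (1 - t ^ 2) := by field_simp
          rw [this]
          nlinarith
        have f2 : 220 * (1 - t ^ 2) * √(Real.pi / b) ≤ (220 * (2 * (1 - t))) * (4 * √(1 - t)) :=
          mul_le_mul (by linarith) f1 (Real.sqrt_nonneg _) (by positivity)
        have f3 : 0 ≤ (1 - t) * √(1 - t) := by positivity
        linarith

end Pool.Agent.H50.BL
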